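import Pool.Agent.Q289.AC.Stm

/-! Project AC (helper289), job TRANSFER (helper182). -/

set_option autoImplicit false

open MeasureTheory ProbabilityTheory Filter Topology

namespace Q182.AC

open Q289.AC

section iso

variable {V : Type*} {X : SimpleGraph V} {v : V} {r N N' : ℕ} {F : SimpleGraph (Fin N)}
  {f : Fin N} {F' : SimpleGraph (Fin N')} {f' : Fin N'}

lemma ballIso_iso (h : BallIso X v r F f) (h' : BallIso X v r F' f') :
    ∃ φ : F ≃g F', φ f = f' := by
  obtain ⟨φ, hφ⟩ := h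
  obtain ⟨ψ, hψ⟩ := h'
  refine ⟨φ.symm.trans ψ, ?_⟩
  rw [← hφ, ← hψ]
  simp

lemma ballIso_of_iso (h : BallIso X v r F f) (φ : F ≃g F') (hf : φ f = f') :
    BallIso X v r F' f' := by
  obtain ⟨ψ, hψ⟩ := h
  exact ⟨ψ.trans φ, by simp [hψ, hf]⟩

end iso

/-- rooted graphs with at most `N0` vertices -/
abbrev RG (N0 : ℕ) : Type := Σ N : Fin (N0 + 1), SimpleGraph (Fin (N : ℕ)) × Fin (N : ℕ)

/-- isomorphism of rooted graphs -/
def rgSetoid (N0 : ℕ) : Setoid (RG N0) where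
  r a b := ∃ φ : a.2.1 ≃g b.2.1, φ a.2.2 = b.2.2
  iseqv :=
    { refl := fun a => ⟨RelIso.refl _, rfl⟩
      symm := by
        rintro a b ⟨φ, hφ⟩
        exact ⟨φ.symm, by rw [← hφ]; simp⟩
      trans := by
        rintro a b c ⟨φ, hφ⟩ ⟨ψ, hψ⟩
        exact ⟨φ.trans ψ, by rw [← hψ, ← hφ]; simp⟩ }

section size

variable {Γ : Type} [Group Γ] {S : Finset Γ}

lemma size_le (hS : Gen S) (n r : ℕ) (v : Bn S n) {N : ℕ} (F : SimpleGraph (Fin N)) (f : Fin N)
    (h : BallIso ((cay S).induce (Bn S n)) v r F f) :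
    N ≤ Nat.card {g : Γ // len S g ≤ r} := by
  obtain ⟨φ, -⟩ := h
  have hfin : Finite {g : Γ // len S g ≤ r} := (finite_ball hS r).to_subtype
  have e1 : N = Nat.card (bs ((cay S).induce (Bn S n)) v r) := by
    rw [Nat.card_congr φ.toEquiv, Nat.card_eq_fintype_card, Fintype.card_fin]
  rw [e1]
  have key : ∀ u ∈ bs ((cay S).induce (Bn S n)) v r, len S ((v : Γ)⁻¹ * (u : Γ)) ≤ r := by
    rintro u ⟨p, hp⟩
    rw [← dist_eq]
    refine (SimpleGraph.dist_le (p.map (SimpleGraph.Embedding.induce (Bn S n)).toHom)).trans ?_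
    rw [SimpleGraph.Walk.length_map]
    exact hp
  refine Nat.card_le_card_of_injective
    (fun u : bs ((cay S).induce (Bn S n)) v r =>
      (⟨(v : Γ)⁻¹ * ((u : Bn S n) : Γ), key u u.2⟩ : {g : Γ // len S g ≤ r})) ?_
  intro a b hab
  have h1 := congrArg Subtype.val hab
  simp only [mul_right_inj] at h1
  exact Subtype.ext (Subtype.ext h1)

end size

theorem transfer : S_Transfer := by
  classical
  intro Γ _ S hS _ Ω _ P _ X ρ hlim r Q ε hev
  obtain ⟨nk, hmono, hlim⟩ := hlim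
  have hmeas : ∀ (N : ℕ) (F : SimpleGraph (Fin N)) (f : Fin N),
      MeasurableSet {ω | BallIso (X ω) (ρ ω) r F f} := fun N F f => (hlim r N F f).1
  have hM : MeasurableSet {ω | ∃ (N : ℕ) (F : SimpleGraph (Fin N)) (f : Fin N), Q N F f ∧
      BallIso (X ω) (ρ ω) r F f} := by
    have e : {ω | ∃ (N : ℕ) (F : SimpleGraph (Fin N)) (f : Fin N), Q N F f ∧
        BallIso (X ω) (ρ ω) r F f} = ⋃ N : ℕ, ⋃ F : SimpleGraph (Fin N), ⋃ f : Fin N,
          ⋃ _ : Q N F f, {ω | BallIso (X ω) (ρ ω) r F f} := by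
      ext ω
      simp
    rw [e]
    refine MeasurableSet.iUnion fun N => ?_
    have : Countable (SimpleGraph (Fin N)) := Finite.to_countable
    exact MeasurableSet.iUnion fun F => MeasurableSet.iUnion fun f =>
      MeasurableSet.iUnion fun _ => hmeas N F f
  refine ⟨hM, ?_⟩
  obtain ⟨N0, hN0⟩ : ∃ N0 : ℕ, N0 = Nat.card {g : Γ // len S g ≤ r} := ⟨_, rfl⟩
  let st : Setoid (RG N0) := rgSetoid N0
  have hfinI : Finite (RG N0) := inferInstance
  have hfinQ : Finite (Quotient st) := Quotient.finite _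
  have : Fintype (Quotient st) := Fintype.ofFinite _
  -- the classes which satisfy `Q`
  obtain ⟨C, hC⟩ : ∃ C : Finset (Quotient st),
      ∀ c, c ∈ C ↔ ∃ τ : RG N0, Quotient.mk st τ = c ∧ Q _ τ.2.1 τ.2.2 := by
    refine ⟨Finset.univ.filter fun c => ∃ τ : RG N0, Quotient.mk st τ = c ∧ Q _ τ.2.1 τ.2.2, ?_⟩
    intro c
    simp
  have hout : ∀ τ : RG N0, ∃ φ : τ.2.1 ≃g (Quotient.mk st τ).out.2.1,
      φ τ.2.2 = (Quotient.mk st τ).out.2.2 := by
    intro τ
    have h1 : Quotient.mk st (Quotient.mk st τ).out = Quotient.mk st τ := Quotient.out_eq _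
    exact (Quotient.exact h1.symm : st.r τ (Quotient.mk st τ).out)
  -- upper bound for the frequencies
  have hfreq : ∀ᶠ n : ℕ in atTop, 1 - ε ≤ ∑ c ∈ C, frac S n r c.out.2.1 c.out.2.2 := by
    filter_upwards [hev] with n hn
    have hfinB : Finite (Bn S n) := by
      refine ((finite_ball hS n).subset fun g hg => ?_).to_subtype
      exact (mem_Bn hS n g).1 hg
    have hne : Nonempty (Bn S n) := ⟨⟨1, self_mem_bs _ _ _⟩⟩
    have hpos : (0 : ℝ) < Nat.card (Bn S n) := by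
      exact_mod_cast Nat.card_pos
    have : Fintype (Bn S n) := Fintype.ofFinite _
    have hsum : ∑ c ∈ C, frac S n r c.out.2.1 c.out.2.2 =
        (∑ c ∈ C, (Nat.card {v : Bn S n // BallIso ((cay S).induce (Bn S n)) v r
          c.out.2.1 c.out.2.2} : ℝ)) / Nat.card (Bn S n) := by
      rw [Finset.sum_div]
      rfl
    rw [hsum, le_div_iff₀ hpos]
    refine hn.trans ?_
    have hcard : Nat.card {v : Bn S n // ∃ (N : ℕ) (F : SimpleGraph (Fin N)) (f : Fin N),
        Q N F f ∧ BallIso ((cay S).induce (Bn S n)) v r F f} ≤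
        ∑ c ∈ C, Nat.card {v : Bn S n // BallIso ((cay S).induce (Bn S n)) v r
          c.out.2.1 c.out.2.2} := by
      have e1 : ∀ p : Bn S n → Prop, Nat.card {v : Bn S n // p v} =
          (Finset.univ.filter p).card := by
        intro p
        rw [Nat.card_eq_fintype_card, Fintype.card_subtype]
      rw [e1]
      simp_rw [e1]
      refine le_trans (Finset.card_le_card ?_) Finset.card_biUnion_le
      intro v hv
      rw [Finset.mem_filter] at hv
      obtain ⟨-, N, F, f, hQ, hiso⟩ := hv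
      have hN : N ≤ N0 := by
        rw [hN0]
        exact size_le hS n r v F f hiso
      rw [Finset.mem_biUnion]
      obtain ⟨τ, hτ⟩ : ∃ τ : RG N0, τ = ⟨⟨N, Nat.lt_succ_of_le hN⟩, F, f⟩ := ⟨_, rfl⟩
      refine ⟨Quotient.mk st τ, (hC _).2 ⟨τ, rfl, ?_⟩, ?_⟩
      · rw [hτ]
        exact hQ
      · rw [Finset.mem_filter]
        refine ⟨Finset.mem_univ _, ?_⟩
        obtain ⟨φ, hφ⟩ := hout τ
        have hiso' : BallIso ((cay S).induce (Bn S n)) v r τ.2.1 τ.2.2 := by
          rw [hτ]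
          exact hiso
        exact ballIso_of_iso hiso' φ hφ
    exact_mod_cast hcard
  -- pass to the limit
  have hlim2 : Tendsto (fun k => ∑ c ∈ C, frac S (nk k) r c.out.2.1 c.out.2.2) atTop
      (𝓝 (∑ c ∈ C, P.real {ω | BallIso (X ω) (ρ ω) r c.out.2.1 c.out.2.2})) :=
    tendsto_finsetSum _ fun c _ => (hlim r _ c.out.2.1 c.out.2.2).2
  have h1 : 1 - ε ≤ ∑ c ∈ C, P.real {ω | BallIso (X ω) (ρ ω) r c.out.2.1 c.out.2.2} :=
    ge_of_tendsto hlim2 (hmono.tendsto_atTop.eventually hfreq)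
  refine h1.trans ?_
  have hdisj : Set.PairwiseDisjoint (C : Set (Quotient st))
      (fun c => {ω | BallIso (X ω) (ρ ω) r c.out.2.1 c.out.2.2}) := by
    intro c _ d _ hcd
    rw [Function.onFun, Set.disjoint_left]
    intro ω h2 h3
    apply hcd
    have h4 : st.r c.out d.out := ballIso_iso h2 h3
    rw [← Quotient.out_eq c, ← Quotient.out_eq d]
    exact Quotient.sound h4
  rw [← measureReal_biUnion_finset hdisj fun c _ => hmeas _ _ _]
  refine measureReal_mono ?_ (measure_ne_top _ _)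
  intro ω hω
  rw [Set.mem_iUnion₂] at hω
  obtain ⟨c, hc, hiso⟩ := hω
  obtain ⟨τ, hτ, hQ⟩ := (hC c).1 hc
  subst hτ
  obtain ⟨φ, hφ⟩ := hout τ
  refine ⟨_, τ.2.1, τ.2.2, hQ, ?_⟩
  refine ballIso_of_iso hiso φ.symm ?_
  rw [← hφ]
  simp

end Q182.AC
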